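import Pool.Agent.Helper70.SK.Stmts
import Pool.Agent.Helper70.SK.Lib

/-! Sticky Kakeya sets, module COMB: from the comparison of profiles to approximate invariance. -/

namespace Pool.Agent.Helper70.SK

open Finset Pool.Agent.Helper70.DK

theorem comb_mem_Bx {q : ℕ} {s : ℤ} {y S : Fin q → ℤ} :
    S ∈ Bx s y ↔ ∀ r, y r - s < S r ∧ S r ≤ y r := by
  unfold Bx
  simp only [Fintype.mem_piFinset, Finset.mem_Ioc]

/-- sum over the shifted box -/
theorem comb_inj {q : ℕ} (I J : Finset (Fin q → ℤ)) (F : (Fin q → ℤ) → ℝ) (w : Fin q → ℤ)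
    (hF : ∀ S, 0 ≤ F S) (h : ∀ S ∈ I, (fun r => S r + w r) ∈ J) :
    ∑ S ∈ I, F (fun r => S r + w r) ≤ ∑ S ∈ J, F S := by
  classical
  have hinj : Set.InjOn (fun (S : Fin q → ℤ) r => S r + w r) (I : Set (Fin q → ℤ)) := by
    intro S _ S' _ e
    funext r
    have h1 := congrFun e r
    simp only at h1
    omega
  have h2 := Finset.sum_image (s := I) (f := F) (g := fun (S : Fin q → ℤ) r => S r + w r) hinj
  rw [← h2]
  refine Finset.sum_le_sum_of_subset_of_nonneg ?_ (fun z _ _ => hF z)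
  intro z hz
  obtain ⟨S, hS, rfl⟩ := Finset.mem_image.1 hz
  exact h S hS

theorem comb_chain {E : Type} (d : E → E → ℝ) (h0 : ∀ x, d x x = 0)
    (ht : ∀ x x' x'', d x x'' ≤ d x x' + d x' x'') (g : ℕ → E) (T : ℕ → ℝ)
    (hT : ∀ j, d (g j) (g (j + 1)) ≤ T j) (n : ℕ) : d (g 0) (g n) ≤ ∑ j ∈ range n, T j := by
  induction n with
  | zero => rw [h0]; simp
  | succ n ih =>
    rw [Finset.sum_range_succ]
    exact (ht _ (g n) _).trans (add_le_add ih (hT n))

theorem comb_pair {E : Type} {q : ℕ} (y y' R R' : Fin q → ℤ) (a b : (Fin q → ℤ) → E) (d : E → E → ℝ)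
    (s0 s1 s2 h : ℕ) (φ2 : ℝ) (hs2 : 0 < s2) (hφ2 : 0 < φ2)
    (d0 : ∀ x, d x x = 0) (dn : ∀ x x', 0 ≤ d x x') (ds : ∀ x x', d x x' = d x' x)
    (dt : ∀ x x' x'', d x x'' ≤ d x x' + d x' x'')
    (hy : ∀ r, |y r - y' r| < s1) (hR : ∃ r, (s2 : ℤ) ≤ |R' r - R r|) (Bad : Finset (Fin q → ℤ))
    (hBad : ∀ S ∈ Bad, (∀ r, y r - R r - s0 + s1 + h ≤ S r ∧ S r ≤ y r - R r - s1 - h) ∧
      ∃ j : ℕ, (∀ r, (j : ℤ) * |R' r - R r| ≤ h) ∧
        φ2 < d (b S) (b (fun r => S r - j * (R' r - R r)))) :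
    (Bad.card : ℝ) ≤ (h / (s2 * φ2)) * (∑ S ∈ Bx (s0 : ℤ) y, d (a S) (b (fun r => S r - R r)) +
      ∑ S ∈ Bx (s0 : ℤ) y', d (a S) (b (fun r => S r - R' r))) := by
  classical
  obtain ⟨r0, hr0⟩ := hR
  set F : (Fin q → ℤ) → ℝ := fun S => d (a S) (b (fun r => S r - R r)) with hF
  set F' : (Fin q → ℤ) → ℝ := fun S => d (a S) (b (fun r => S r - R' r)) with hF'
  set w : ℕ → Fin q → ℤ := fun j r => R r - j * (R' r - R r) with hw
  set T : ℕ → (Fin q → ℤ) → ℝ := fun j S => F (fun r => S r + w j r) + F' (fun r => S r + w j r) with hT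
  have hFn : ∀ S, 0 ≤ F S := fun S => dn _ _
  have hFn' : ∀ S, 0 ≤ F' S := fun S => dn _ _
  have hTn : ∀ j S, 0 ≤ T j S := fun j S => add_nonneg (hFn _) (hFn' _)
  set J : Finset ℕ := (range (h / s2)).filter (fun j => ∀ r, (j : ℤ) * |R' r - R r| ≤ h) with hJ
  have hstep : ∀ (S : Fin q → ℤ) (j : ℕ), d (b (fun r => S r - j * (R' r - R r)))
      (b (fun r => S r - ((j + 1 : ℕ) : ℤ) * (R' r - R r))) ≤ T j S := by
    intro S j
    have e1 : F (fun r => S r + w j r) = d (a (fun r => S r + w j r)) (b (fun r => S r - j * (R' r - R r))) := by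
      have e2 : (fun r => S r + w j r - R r) = fun r => S r - j * (R' r - R r) := by
        funext r
        simp only [hw]
        ring
      simp only [hF]
      rw [e2]
    have e1' : F' (fun r => S r + w j r) = d (a (fun r => S r + w j r))
        (b (fun r => S r - ((j + 1 : ℕ) : ℤ) * (R' r - R r))) := by
      have e2 : (fun r => S r + w j r - R' r) = fun r => S r - ((j + 1 : ℕ) : ℤ) * (R' r - R r) := by
        funext r
        simp only [hw]
        push_cast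
        ring
      simp only [hF']
      rw [e2]
    have e3 : T j S = F (fun r => S r + w j r) + F' (fun r => S r + w j r) := rfl
    rw [e3, e1, e1', ds (a _) (b (fun r => S r - j * (R' r - R r)))]
    exact dt _ _ _
  have hone : ∀ S ∈ Bad, φ2 ≤ ∑ j ∈ J, T j S := by
    intro S hS
    obtain ⟨-, j0, hj0, hj1⟩ := hBad S hS
    have h1 := comb_chain d d0 dt (fun j : ℕ => b (fun r => S r - j * (R' r - R r))) (fun j => T j S)
      (fun j => hstep S j) j0
    have e0 : (fun r => S r - ((0 : ℕ) : ℤ) * (R' r - R r)) = S := by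
      funext r
      simp
    rw [e0] at h1
    refine (hj1.le.trans h1).trans ?_
    apply Finset.sum_le_sum_of_subset_of_nonneg
    · intro j hj
      have hj2 := Finset.mem_range.1 hj
      rw [hJ, Finset.mem_filter, Finset.mem_range]
      constructor
      · apply lt_of_lt_of_le hj2
        rw [Nat.le_div_iff_mul_le hs2]
        have h3 := hj0 r0
        have h4 : (j0 : ℤ) * s2 ≤ h := le_trans (mul_le_mul_of_nonneg_left hr0 (Int.natCast_nonneg j0)) h3
        exact_mod_cast h4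
      · intro r
        refine le_trans ?_ (hj0 r)
        apply mul_le_mul_of_nonneg_right _ (abs_nonneg _)
        exact_mod_cast hj2.le
    · intro j _ _
      exact hTn j S
  have hsum : ∀ j ∈ J, ∑ S ∈ Bad, T j S ≤ ∑ S ∈ Bx (s0 : ℤ) y, F S + ∑ S ∈ Bx (s0 : ℤ) y', F' S := by
    intro j hj
    have hj1 := (Finset.mem_filter.1 hj).2
    have hbox : ∀ S ∈ Bad, ∀ r, y r - s0 + s1 ≤ S r + w j r ∧ S r + w j r ≤ y r - s1 := by
      intro S hS r
      have h1 := (hBad S hS).1 r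
      have h2 := hj1 r
      have h3 : |(j : ℤ) * (R' r - R r)| ≤ h := by
        rw [abs_mul, abs_of_nonneg (Int.natCast_nonneg j)]
        exact h2
      rw [abs_le] at h3
      have e1 : w j r = R r - j * (R' r - R r) := rfl
      rw [e1]
      generalize (j : ℤ) * (R' r - R r) = z at *
      constructor <;> omega
    have e3 : ∀ S, T j S = F (fun r => S r + w j r) + F' (fun r => S r + w j r) := fun S => rfl
    rw [Finset.sum_congr rfl fun S _ => e3 S, Finset.sum_add_distrib]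
    apply add_le_add
    · apply comb_inj Bad _ F (w j) hFn
      intro S hS
      rw [comb_mem_Bx]
      intro r
      have h1 := hbox S hS r
      have h2 := hy r
      rw [abs_lt] at h2
      constructor <;> omega
    · apply comb_inj Bad _ F' (w j) hFn'
      intro S hS
      rw [comb_mem_Bx]
      intro r
      have h1 := hbox S hS r
      have h2 := hy r
      rw [abs_lt] at h2
      constructor <;> omega
  set A : ℝ := ∑ S ∈ Bx (s0 : ℤ) y, F S + ∑ S ∈ Bx (s0 : ℤ) y', F' S with hA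
  have hA0 : 0 ≤ A := add_nonneg (Finset.sum_nonneg fun _ _ => hFn _) (Finset.sum_nonneg fun _ _ => hFn' _)
  have hs2R : (0 : ℝ) < s2 := by exact_mod_cast hs2
  have hfin : (Bad.card : ℝ) * φ2 ≤ (h / s2) * A := by
    calc (Bad.card : ℝ) * φ2 = ∑ S ∈ Bad, φ2 := by rw [Finset.sum_const, nsmul_eq_mul]
      _ ≤ ∑ S ∈ Bad, ∑ j ∈ J, T j S := Finset.sum_le_sum hone
      _ = ∑ j ∈ J, ∑ S ∈ Bad, T j S := Finset.sum_comm
      _ ≤ ∑ j ∈ J, A := Finset.sum_le_sum hsum
      _ = J.card * A := by rw [Finset.sum_const, nsmul_eq_mul]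
      _ ≤ (h / s2) * A := by
          apply mul_le_mul_of_nonneg_right _ hA0
          have h1 : J.card ≤ h / s2 := by
            have h2 := Finset.card_filter_le (range (h / s2)) (fun j : ℕ => ∀ r, (j : ℤ) * |R' r - R r| ≤ h)
            rw [Finset.card_range] at h2
            exact h2
          calc (J.card : ℝ) ≤ ((h / s2 : ℕ) : ℝ) := by exact_mod_cast h1
            _ ≤ (h : ℝ) / s2 := Nat.cast_div_le
  have e5 : (h / (s2 * φ2)) * A = (h / s2) * A / φ2 := by
    field_simp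
  rw [e5, le_div_iff₀ hφ2]
  exact hfin

theorem comb_avg {Ω α : Type} (P : Finset Ω) (Gf : Ω → α) (A : Ω → ℝ) :
    ∑ ω ∈ P, (∑ ω' ∈ fib P Gf (Gf ω), (A ω + A ω')) / ((fib P Gf (Gf ω)).card : ℝ) = 2 * ∑ ω ∈ P, A ω := by
  classical
  have hcard : ∀ ω ∈ P, (0 : ℝ) < ((fib P Gf (Gf ω)).card : ℝ) := by
    intro ω hω
    have : ω ∈ fib P Gf (Gf ω) := by
      unfold fib
      exact Finset.mem_filter.2 ⟨hω, rfl⟩
    exact_mod_cast Finset.card_pos.2 ⟨ω, this⟩
  have h1 : ∀ ω ∈ P, (∑ ω' ∈ fib P Gf (Gf ω), (A ω + A ω')) / ((fib P Gf (Gf ω)).card : ℝ) =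
      A ω + ∑ ω' ∈ fib P Gf (Gf ω), A ω' / ((fib P Gf (Gf ω')).card : ℝ) := by
    intro ω hω
    rw [Finset.sum_add_distrib, Finset.sum_const, nsmul_eq_mul, add_div,
      mul_div_cancel_left₀ _ (hcard ω hω).ne', Finset.sum_div]
    congr 1
    apply Finset.sum_congr rfl
    intro ω' hω'
    have h2 : Gf ω' = Gf ω := by
      unfold fib at hω'
      exact (Finset.mem_filter.1 hω').2
    rw [h2]
  rw [Finset.sum_congr rfl h1, Finset.sum_add_distrib, two_mul]
  congr 1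
  rw [Finset.sum_comm' (t' := P) (s' := fun ω' => fib P Gf (Gf ω'))]
  · apply Finset.sum_congr rfl
    intro ω hω
    rw [Finset.sum_const, nsmul_eq_mul, mul_div_cancel₀ _ (hcard ω hω).ne']
  · intro ω ω'
    unfold fib
    simp only [Finset.mem_filter]
    constructor
    · rintro ⟨h2, h3, h4⟩
      exact ⟨⟨h2, h4.symm⟩, h3⟩
    · rintro ⟨⟨h2, h4⟩, h3⟩
      exact ⟨h2, h3, h4.symm⟩

theorem st_COMB : ST_COMB := by
  classical
  intro Ω α E q P Gf y R a b d s0 s1 s2 h φ φ2 hP hs1 hs2 hφ2 hφ d0 dn ds dt hy hsum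
  set A : Ω → ℝ := fun ω => ∑ S ∈ Bx (s0 : ℤ) (y ω), d (a (Gf ω) S) (b (Gf ω) (fun r => S r - R ω r)) with hA
  have hA0 : ∀ ω, 0 ≤ A ω := fun ω => Finset.sum_nonneg fun _ _ => dn _ _
  have hcoef : (0 : ℝ) ≤ h / (s2 * φ2) := by positivity
  have hterm : ∀ ω ∈ P, (∑ ω' ∈ fib P Gf (Gf ω), if (∃ r, (s2 : ℤ) ≤ |R ω' r - R ω r|) then
      (((Fintype.piFinset (fun r => Finset.Icc (y ω r - R ω r - s0 + s1 + h) (y ω r - R ω r - s1 - h))).filter
        (fun S => ∃ j : ℕ, (∀ r, (j : ℤ) * |R ω' r - R ω r| ≤ h) ∧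
          φ2 < d (b (Gf ω) S) (b (Gf ω) (fun r => S r - j * (R ω' r - R ω r))))).card : ℝ) else 0) /
      ((fib P Gf (Gf ω)).card : ℝ) ≤
      (h / (s2 * φ2)) * ((∑ ω' ∈ fib P Gf (Gf ω), (A ω + A ω')) / ((fib P Gf (Gf ω)).card : ℝ)) := by
    intro ω hω
    rw [← mul_div_assoc, Finset.mul_sum]
    apply div_le_div_of_nonneg_right _ (Nat.cast_nonneg _)
    apply Finset.sum_le_sum
    intro ω' hω'
    have h2 : ω' ∈ P ∧ Gf ω' = Gf ω := by
      unfold fib at hω'
      exact Finset.mem_filter.1 hω'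
    split_ifs with h3
    · have h4 := comb_pair (y ω) (y ω') (R ω) (R ω') (a (Gf ω)) (b (Gf ω)) d s0 s1 s2 h φ2 hs2 hφ2 d0 dn ds dt
        (hy ω hω ω' h2.1 h2.2.symm) h3
        ((Fintype.piFinset (fun r => Finset.Icc (y ω r - R ω r - s0 + s1 + h) (y ω r - R ω r - s1 - h))).filter
        (fun S => ∃ j : ℕ, (∀ r, (j : ℤ) * |R ω' r - R ω r| ≤ h) ∧
          φ2 < d (b (Gf ω) S) (b (Gf ω) (fun r => S r - j * (R ω' r - R ω r)))))
        (by
          intro S hS
          have h5 := Finset.mem_filter.1 hS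
          refine ⟨?_, h5.2⟩
          intro r
          have h6 := Fintype.mem_piFinset.1 h5.1 r
          exact Finset.mem_Icc.1 h6)
      have e1 : A ω' = ∑ S ∈ Bx (s0 : ℤ) (y ω'), d (a (Gf ω) S) (b (Gf ω) (fun r => S r - R ω' r)) := by
        simp only [hA]
        rw [h2.2]
      rw [e1]
      exact h4
    · exact mul_nonneg hcoef (add_nonneg (hA0 ω) (hA0 ω'))
  calc _ ≤ ∑ ω ∈ P, (h / (s2 * φ2)) *
        ((∑ ω' ∈ fib P Gf (Gf ω), (A ω + A ω')) / ((fib P Gf (Gf ω)).card : ℝ)) := Finset.sum_le_sum hterm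
    _ = (h / (s2 * φ2)) * (2 * ∑ ω ∈ P, A ω) := by
        rw [← Finset.mul_sum, comb_avg P Gf A]
    _ ≤ (h / (s2 * φ2)) * (2 * (P.card * (s0 : ℝ) ^ q * φ)) := by
        apply mul_le_mul_of_nonneg_left _ hcoef
        linarith
    _ = P.card * (s0 : ℝ) ^ q * (2 * φ * (h / (s2 * φ2))) := by ring

end Pool.Agent.Helper70.SK
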