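import Pool.Agent.Helper70.SK.Stmts
import Pool.Agent.Helper70.SK.Lib

/-! Sticky Kakeya sets, module MINR: grid points whose images meet at separated heights have small minors. -/

namespace Pool.Agent.Helper70.SK

open Finset Pool.Agent.Helper70.DK

theorem minr_eval {p : ℕ} (A A' : Matrix (Fin p) (Fin p) ℝ) (t : ℝ) :
    ((((Polynomial.X : Polynomial ℝ) • A.map Polynomial.C + A'.map Polynomial.C).det).eval t) =
      (t • A + A').det := by
  rw [← Polynomial.coe_evalRingHom, RingHom.map_det]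
  apply congrArg
  ext i j
  simp
  ring

theorem minr_poly (hLAG : ST_LAG) {p : ℕ} (A A' : Matrix (Fin p) (Fin p) ℝ) (t : Fin (p + 1) → ℝ)
    (sep b : ℝ) (hs : 0 < sep) (h1 : ∀ l l', l ≠ l' → sep ≤ |t l - t l'|)
    (h2 : ∀ l, |(t l • A + A').det| ≤ b) : |A.det| * sep ^ p ≤ (p + 1) * b := by
  have h3 := Polynomial.coeff_det_X_add_C_card A A'
  have h4 := Polynomial.natDegree_det_X_add_C_le A A'
  rw [Fintype.card_fin] at h3 h4
  have h5 := hLAG p _ t sep b h4 hs h1 (fun l => by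
    rw [minr_eval]
    exact h2 l)
  rw [h3] at h5
  exact h5

theorem st_MINR (hLINA : ST_LINA) (hLAG : ST_LAG) (hGEO : ST_GEO) : ST_MINR := by
  intro m q p B R κ D K' hq hqm hp hB hR hκ hD hK
  have hp1 : 1 ≤ p := by omega
  have hκ' : 0 < Real.sqrt κ := Real.sqrt_pos.2 hκ
  have hb2 : (2 : ℝ) ≤ (B : ℝ) := by exact_mod_cast hB
  have hb : (0 : ℝ) < (B : ℝ) := by linarith
  refine ⟨((p : ℝ) + 1) * (p.factorial * (R + 1) ^ (p - 1) * (p * Real.sqrt q * K' / Real.sqrt κ)),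
    by positivity, ?_⟩
  intro σ C hσ k W j0 hkW hj0 x γ hx hγ hsep hY I
  have hk : k ≤ σ.n := by omega
  have hn1 := hσ.n1
  have hn3 := hσ.n3
  obtain ⟨-, -, hG3, -⟩ := hGEO m q B R κ D C σ hB hR hD hσ
  set b : ℝ := (B : ℝ) with hbdef
  set d : ℕ := σ.n - k with hd
  set Xx : ℝ := b ^ σ.a3 * b ^ d with hXx
  have hXx0 : 0 < Xx := by positivity
  set al : Fin m → Fin p → ℝ := fun c j => (σ.A (x j.succ) c : ℝ) - (σ.A (x 0) c : ℝ) with hal
  set xi : Fin m → Fin p → ℝ := fun c j => (x j.succ c : ℝ) - (x 0 c : ℝ) with hxi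
  have hal1 : ∀ c j, |al c j| ≤ R * b ^ d := by
    intro c j
    exact hσ.st k hk _ (hx j.succ).1 _ (hx 0).1 (hx j.succ).2 c
  have hxi1 : ∀ c j, |xi c j| ≤ b ^ d := by
    intro c j
    have h1 := (hG3 k hk _ (hx j.succ).1).2.2.2 c
    have h2 := (hG3 k hk _ (hx 0).1).2.2.2 c
    have h3 : σ.co B k (x j.succ) c = σ.co B k (x 0) c := by
      unfold Sy.co
      rw [(hx j.succ).2]
    rw [h3] at h1
    have h4 : |x j.succ c - x 0 c| ≤ (B : ℤ) ^ (σ.n - k) := by
      rw [abs_le]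
      constructor <;> omega
    have h5 : ((|x j.succ c - x 0 c| : ℤ) : ℝ) ≤ (((B : ℤ) ^ (σ.n - k) : ℤ) : ℝ) := by
      exact_mod_cast h4
    push_cast at h5
    exact h5
  -- the matrices
  set V : ℝ → Matrix (Fin m) (Fin p) ℝ := fun t => Matrix.of fun c j => b ^ σ.a3 * al c j + t * xi c j with hV
  have hVb : ∀ l c j, |V (σ.t (γ l)) c j| ≤ (R + 1) * Xx := by
    intro l c j
    have ht := hσ.tb (γ l) (hγ l)
    have ht0 : (0 : ℝ) ≤ (σ.t (γ l) : ℝ) := by exact_mod_cast ht.1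
    have ht1 : (σ.t (γ l) : ℝ) ≤ b ^ σ.a3 := by
      have := ht.2
      have h6 : ((σ.t (γ l) : ℤ) : ℝ) ≤ (((B : ℤ) ^ σ.a3 : ℤ) : ℝ) := by exact_mod_cast this
      push_cast at h6
      exact h6
    have e1 : V (σ.t (γ l)) c j = b ^ σ.a3 * al c j + (σ.t (γ l) : ℝ) * xi c j := rfl
    rw [e1]
    calc |b ^ σ.a3 * al c j + (σ.t (γ l) : ℝ) * xi c j|
        ≤ |b ^ σ.a3 * al c j| + |(σ.t (γ l) : ℝ) * xi c j| := abs_add_le _ _
      _ = b ^ σ.a3 * |al c j| + (σ.t (γ l) : ℝ) * |xi c j| := by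
          rw [abs_mul, abs_mul, abs_of_nonneg (by positivity : (0 : ℝ) ≤ b ^ σ.a3), abs_of_nonneg ht0]
      _ ≤ b ^ σ.a3 * (R * b ^ d) + b ^ σ.a3 * b ^ d := by
          apply add_le_add
          · exact mul_le_mul_of_nonneg_left (hal1 c j) (by positivity)
          · exact mul_le_mul ht1 (hxi1 c j) (abs_nonneg _) (by positivity)
      _ = (R + 1) * Xx := by rw [hXx]; ring
  have hNV : ∀ l r j, |((Matrix.of fun (r : Fin q) (c : Fin m) => (σ.N (γ l) r c : ℝ)) * V (σ.t (γ l))) r j| ≤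
      K' * b ^ σ.e (k + W) := by
    intro l r j
    have e1 : ((Matrix.of fun (r : Fin q) (c : Fin m) => (σ.N (γ l) r c : ℝ)) * V (σ.t (γ l))) r j =
        (σ.Y B (γ l) (x j.succ) r : ℝ) - (σ.Y B (γ l) (x 0) r : ℝ) := by
      rw [Matrix.mul_apply]
      unfold Sy.Y
      push_cast
      rw [← Finset.sum_sub_distrib]
      apply Finset.sum_congr rfl
      intro c _
      have e2 : V (σ.t (γ l)) c j = b ^ σ.a3 * al c j + (σ.t (γ l) : ℝ) * xi c j := rfl
      rw [e2, hal, hxi]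
      simp only [Matrix.of_apply]
      ring
    rw [e1]
    exact hY l j.succ r
  set Ax : Matrix (Fin p) (Fin p) ℝ := Matrix.of fun i j => xi (I i) j with hAx
  set Aa : Matrix (Fin p) (Fin p) ℝ := Matrix.of fun i j => b ^ σ.a3 * al (I i) j with hAa
  have hVsub : ∀ t : ℝ, (V t).submatrix I id = t • Ax + Aa := by
    intro t
    ext i j
    simp only [Matrix.submatrix_apply, id, Matrix.add_apply, Matrix.smul_apply, smul_eq_mul, hAx, hAa, hV,
      Matrix.of_apply]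
    ring
  set c' : ℝ := p.factorial * (R + 1) ^ (p - 1) * (p * Real.sqrt q * K' / Real.sqrt κ) with hc'
  have hsq : Real.sqrt (κ * b ^ (2 * σ.a1)) = Real.sqrt κ * b ^ σ.a1 := by
    rw [Real.sqrt_mul hκ.le, pow_mul', Real.sqrt_sq (by positivity)]
  have hexp : b ^ σ.e (k + W) * b ^ W = b ^ σ.a1 * Xx := by
    rw [hXx, ← pow_add, ← pow_add, ← pow_add]
    congr 1
    unfold Sy.e
    omega
  have hdet : ∀ l, |(((σ.t (γ l) : ℝ)) • Ax + Aa).det| ≤ c' * Xx ^ p / b ^ W := by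
    intro l
    have h1 := hLINA m q p (Matrix.of fun (r : Fin q) (c : Fin m) => (σ.N (γ l) r c : ℝ)) (V (σ.t (γ l)))
      (κ * b ^ (2 * σ.a1)) ((R + 1) * Xx) (K' * b ^ σ.e (k + W)) (by omega) hp1 (by positivity)
      (by positivity) (by positivity) (fun v => hσ.nd (γ l) (hγ l) v) (hVb l) (hNV l) I
    rw [hVsub, hsq] at h1
    rw [le_div_iff₀ (by positivity)]
    calc |(((σ.t (γ l) : ℝ)) • Ax + Aa).det| * b ^ W
        ≤ (p.factorial * ((R + 1) * Xx) ^ (p - 1) *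
          (p * Real.sqrt q * (K' * b ^ σ.e (k + W)) / (Real.sqrt κ * b ^ σ.a1))) * b ^ W :=
          mul_le_mul_of_nonneg_right h1 (by positivity)
      _ = p.factorial * ((R + 1) ^ (p - 1) * Xx ^ (p - 1)) *
          (p * Real.sqrt q * (K' * (b ^ σ.e (k + W) * b ^ W)) / (Real.sqrt κ * b ^ σ.a1)) := by
          rw [mul_pow]
          ring
      _ = p.factorial * ((R + 1) ^ (p - 1) * Xx ^ (p - 1)) *
          (p * Real.sqrt q * K' * Xx / Real.sqrt κ) := by
          rw [hexp]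
          congr 1
          rw [div_eq_div_iff (by positivity) (by positivity)]
          ring
      _ = c' * (Xx ^ (p - 1) * Xx) := by
          rw [hc']
          ring
      _ = c' * Xx ^ p := by
          rw [← pow_succ]
          congr 2
          omega
  have hsepR : ∀ l l', l ≠ l' → b ^ (σ.a3 - j0) ≤ |(σ.t (γ l) : ℝ) - (σ.t (γ l') : ℝ)| := by
    intro l l' hl
    have h1 := hsep l l' hl
    have h2 : (((B : ℤ) ^ (σ.a3 - j0) : ℤ) : ℝ) ≤ ((|σ.t (γ l) - σ.t (γ l')| : ℤ) : ℝ) := by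
      exact_mod_cast h1
    push_cast at h2
    exact h2
  have hmain := minr_poly hLAG Ax Aa (fun l => (σ.t (γ l) : ℝ)) (b ^ (σ.a3 - j0)) (c' * Xx ^ p / b ^ W)
    (by positivity) hsepR hdet
  have hdetT : (Matrix.of fun i j : Fin p => ((x i.succ (I j) - x 0 (I j) : ℤ) : ℝ)).det = Ax.det := by
    rw [← Matrix.det_transpose]
    congr 1
    ext i j
    simp only [Matrix.transpose_apply, Matrix.of_apply, hAx, hxi]
    push_cast
    ring
  rw [hdetT]
  rw [mul_div_assoc', le_div_iff₀ (by positivity)] at hmain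
  -- cancel
  have hc1 : (b ^ (σ.a3 - j0)) ^ p * b ^ (p * j0) = b ^ (σ.a3 * p) := by
    rw [← pow_mul, ← pow_add]
    congr 1
    rw [Nat.mul_comm p j0, ← Nat.add_mul]
    congr 1
    omega
  have hc2 : Xx ^ p = b ^ (σ.a3 * p) * b ^ (d * p) := by
    rw [hXx, mul_pow, ← pow_mul, ← pow_mul]
  have hpos : (0 : ℝ) < b ^ (σ.a3 * p) := by positivity
  apply le_of_mul_le_mul_right _ hpos
  calc |Ax.det| * b ^ W * b ^ (σ.a3 * p)
      = (|Ax.det| * (b ^ (σ.a3 - j0)) ^ p * b ^ W) * b ^ (p * j0) := by rw [← hc1]; ring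
    _ ≤ ((p + 1) * (c' * Xx ^ p)) * b ^ (p * j0) := mul_le_mul_of_nonneg_right hmain (by positivity)
    _ = (p + 1) * c' * b ^ (d * p) * b ^ (p * j0) * b ^ (σ.a3 * p) := by rw [hc2]; ring

end Pool.Agent.Helper70.SK
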