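import Pool.Agent.Helper70.SK.Stmts
import Pool.Agent.Helper70.SK.Lib

/-! Sticky Kakeya sets, module PK: the enumeration of a finite set. -/

namespace Pool.Agent.Helper70.SK

open Finset Pool.Agent.Helper70.DK

theorem st_PK : ST_PK := by
  classical
  intro Ω F N d hF hN
  have hc : 0 < F.card := hF.card_pos
  have hlen : F.toList.length = F.card := Finset.length_toList F
  refine ⟨?_, ?_⟩
  · intro j
    have hlt : j % F.card < F.toList.length := by rw [hlen]; exact Nat.mod_lt _ hc
    unfold pk
    rw [List.getD_eq_getElem _ _ hlt]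
    exact Finset.mem_toList.1 (List.getElem_mem _)
  · intro ω hω
    obtain ⟨i0, hi0, he⟩ := List.mem_iff_getElem.1 (Finset.mem_toList.2 hω)
    have hi1 : i0 < F.card := by rw [← hlen]; exact hi0
    have hkey : ∀ j, pk F j d = ω ↔ j ≡ i0 [MOD F.card] := by
      intro j
      have hlt : j % F.card < F.toList.length := by rw [hlen]; exact Nat.mod_lt _ hc
      unfold pk Nat.ModEq
      rw [List.getD_eq_getElem _ _ hlt, ← he, Nat.mod_eq_of_lt hi1]
      exact (Finset.nodup_toList F).getElem_inj_iff
    have h2 : (Finset.range N).filter (fun j => pk F j d = ω) =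
        (Finset.range N).filter (fun j => j ≡ i0 [MOD F.card]) :=
      Finset.filter_congr fun j _ => hkey j
    have h3 := Nat.count_modEq_card N hc i0
    rw [Nat.count_eq_card_filter_range, Nat.mod_eq_zero_of_dvd hN] at h3
    rw [h2, h3]
    simp only [Nat.not_lt_zero, if_false, Nat.add_zero]
    exact Nat.div_mul_cancel hN

end Pool.Agent.Helper70.SK
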