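import Pool.Agent.Helper70.SK.Stmts
import Pool.Agent.Helper70.SK.Lib

/-!
# SEL: selection of a system on which the averaged increments converge
-/

namespace Pool.Agent.Helper70.SK

open Finset Pool.Agent.Helper70.DK Filter Topology

theorem st_SEL : ST_SEL := by
  intro M E c K h hM hc hK hb hm h0 hE
  -- increments
  set w : ℕ → ℕ → ℕ → ℝ := fun n k l => h n k (l + 1) - h n k l with hw
  have hw0 : ∀ n k l, l + 1 ≤ K n → k ≤ K n → 0 ≤ w n k l ∧ w n k l ≤ M := hb
  have hwm : ∀ n k k' l, l + 1 ≤ K n → k ≤ k' → k' ≤ K n → w n k' l ≤ w n k l := hm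
  set T : ℕ → ℕ → ℝ := fun n j => ∑ k ∈ Finset.range (K n - j), w n k (k + j) with hT
  have hT0 : ∀ n j, 0 ≤ T n j := by
    intro n j
    apply Finset.sum_nonneg
    intro k hk
    rw [Finset.mem_range] at hk
    exact (hw0 n k (k + j) (by omega) (by omega)).1
  have hTM : ∀ n j, T n j ≤ M * K n := by
    intro n j
    have h1 : T n j ≤ ∑ k ∈ Finset.range (K n - j), M := by
      apply Finset.sum_le_sum
      intro k hk
      rw [Finset.mem_range] at hk
      exact (hw0 n k (k + j) (by omega) (by omega)).2
    rw [Finset.sum_const, Finset.card_range, nsmul_eq_mul] at h1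
    have h2 : ((K n - j : ℕ) : ℝ) ≤ K n := by exact_mod_cast Nat.sub_le _ _
    nlinarith
  have hTE : ∀ n j, T n j ≤ E * K n + c := by
    intro n j
    have h1 : T n j ≤ ∑ k ∈ Finset.range (K n - j), w n 0 (j + k) := by
      apply Finset.sum_le_sum
      intro k hk
      rw [Finset.mem_range] at hk
      rw [add_comm j k]
      exact hwm n 0 k (k + j) (by omega) (Nat.zero_le _) (by omega)
    have h2 : ∑ k ∈ Finset.range (K n - j), w n 0 (j + k) =
        ∑ l ∈ Finset.Ico j (j + (K n - j)), w n 0 l := by
      rw [Finset.sum_Ico_eq_sum_range]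
      congr 2
      omega
    have h3 : ∑ l ∈ Finset.Ico j (j + (K n - j)), w n 0 l ≤ ∑ l ∈ Finset.range (K n), w n 0 l := by
      apply Finset.sum_le_sum_of_subset_of_nonneg
      · intro l hl
        rw [Finset.mem_Ico] at hl
        rw [Finset.mem_range]
        omega
      · intro l hl _
        rw [Finset.mem_range] at hl
        exact (hw0 n 0 l (by omega) (Nat.zero_le _)).1
    have h4 : ∑ l ∈ Finset.range (K n), w n 0 l = h n 0 (K n) - h n 0 0 :=
      Finset.sum_range_sub (h n 0) (K n)
    have h5 := h0 n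
    have h6 := hE n
    linarith
  have hTm : ∀ n j, T n j - M ≤ T n (j + 1) := by
    intro n j
    rcases Nat.eq_zero_or_pos (K n - j) with hz | hz
    · have h1 : T n j = 0 := by
        rw [hT]
        dsimp only
        rw [hz, Finset.range_zero, Finset.sum_empty]
      have h2 := hT0 n (j + 1)
      linarith
    · obtain ⟨r, hr⟩ : ∃ r, K n - j = r + 1 := ⟨K n - j - 1, by omega⟩
      have hr' : K n - (j + 1) = r := by omega
      have h1 : T n j = ∑ k ∈ Finset.range r, w n (k + 1) (k + 1 + j) + w n 0 (0 + j) := by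
        rw [hT]
        dsimp only
        rw [hr, Finset.sum_range_succ']
      have h2 : ∑ k ∈ Finset.range r, w n (k + 1) (k + 1 + j) ≤ T n (j + 1) := by
        rw [hT]
        dsimp only
        rw [hr']
        apply Finset.sum_le_sum
        intro k hk
        rw [Finset.mem_range] at hk
        have h3 := hwm n k (k + 1) (k + 1 + j) (by omega) (by omega) (by omega)
        have e : k + (j + 1) = k + 1 + j := by ring
        rw [e]
        exact h3
      have h3 := (hw0 n 0 (0 + j) (by omega) (Nat.zero_le _)).2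
      linarith
  -- the limits
  have hlim : ∀ j, ∃ v ∈ Set.Icc (0 : ℝ) M, Tendsto (fun n => T n j / (K n : ℝ))
      (hyperfilter ℕ : Filter ℕ) (𝓝 v) := by
    intro j
    have h1 : ∀ n, T n j / (K n : ℝ) ∈ Set.Icc (0 : ℝ) M := by
      intro n
      refine ⟨div_nonneg (hT0 n j) (Nat.cast_nonneg _), ?_⟩
      rcases Nat.eq_zero_or_pos (K n) with hz | hz
      · rw [hz, Nat.cast_zero, div_zero]
        exact hM
      · rw [div_le_iff₀ (by exact_mod_cast hz)]
        exact hTM n j
    have h2 := (isCompact_Icc (a := (0 : ℝ)) (b := M)).ultrafilter_le_nhds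
      ((hyperfilter ℕ).map (fun n => T n j / (K n : ℝ))) (by
        rw [Ultrafilter.coe_map, le_principal_iff, Filter.mem_map]
        exact univ_mem' h1)
    obtain ⟨v, hv, hv2⟩ := h2
    exact ⟨v, hv, hv2⟩
  choose V hV1 hV2 using hlim
  have hU : (hyperfilter ℕ : Filter ℕ) ≤ atTop := by
    rw [← Nat.cofinite_eq_atTop]
    exact hyperfilter_le_cofinite
  have hKt : Tendsto (fun n => (K n : ℝ)) (hyperfilter ℕ : Filter ℕ) atTop := by
    apply Tendsto.mono_left _ hU
    apply tendsto_natCast_atTop_atTop.comp
    exact tendsto_atTop_mono hK tendsto_id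
  have hinv : ∀ a : ℝ, Tendsto (fun n => a / (K n : ℝ)) (hyperfilter ℕ : Filter ℕ) (𝓝 0) :=
    fun a => hKt.const_div_atTop a
  have hpos : ∀ᶠ n in (hyperfilter ℕ : Filter ℕ), 1 ≤ (K n : ℝ) := hKt.eventually_ge_atTop 1
  refine ⟨V, ?_, ?_, ?_⟩
  · apply monotone_nat_of_le_succ
    intro j
    have h1 : Tendsto (fun n => T n j / (K n : ℝ) - M / (K n : ℝ)) (hyperfilter ℕ : Filter ℕ)
        (𝓝 (V j - 0)) := (hV2 j).sub (hinv M)
    rw [sub_zero] at h1
    refine le_of_tendsto_of_tendsto h1 (hV2 (j + 1)) ?_
    filter_upwards [hpos] with n hn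
    rw [← sub_div]
    exact div_le_div_of_nonneg_right (hTm n j) (by linarith)
  · intro j
    refine ⟨(hV1 j).1, ?_⟩
    have h1 : Tendsto (fun n => E + c / (K n : ℝ)) (hyperfilter ℕ : Filter ℕ)
        (𝓝 (E + 0)) := tendsto_const_nhds.add (hinv c)
    rw [add_zero] at h1
    refine le_of_tendsto_of_tendsto (hV2 j) h1 ?_
    filter_upwards [hpos] with n hn
    rw [div_le_iff₀ (by linarith), add_mul, div_mul_cancel₀ _ (by linarith)]
    exact hTE n j
  · intro W n0 τ hτ
    have h1 : ∀ᶠ n in (hyperfilter ℕ : Filter ℕ), ∀ j ∈ Finset.range (W + 1),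
        |T n j / (K n : ℝ) - V j| < τ / 2 := by
      rw [eventually_all_finset]
      intro j _
      have h2 := (Metric.tendsto_nhds.mp (hV2 j)) (τ / 2) (by linarith)
      filter_upwards [h2] with n hn
      rw [Real.dist_eq] at hn
      exact hn
    have h2 : ∀ᶠ n in (hyperfilter ℕ : Filter ℕ), n0 ≤ n := hU (eventually_ge_atTop n0)
    have h3 := hKt.eventually_ge_atTop ((W : ℝ) + 4 * M * W / τ)
    obtain ⟨n, hn1, hn2, hn3⟩ := (h1.and (h2.and h3)).exists
    have hWM : 0 ≤ 4 * M * W / τ := by positivity
    have hKW : W ≤ K n := by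
      have : (W : ℝ) ≤ K n := by linarith
      exact_mod_cast this
    refine ⟨n, hn2, hKW, ?_⟩
    intro o j hoj
    have hj := hn1 j (Finset.mem_range.mpr (by omega))
    set L := K n - W + 1 with hL
    have hLr : (L : ℝ) = (K n : ℝ) - W + 1 := by
      rw [hL]
      push_cast [Nat.cast_sub hKW]
      ring
    have hLp : (0 : ℝ) < L := by
      rw [hLr]
      linarith
    have hLbig : 4 * M * W / τ ≤ L := by
      rw [hLr]
      linarith
    set S := ∑ k ∈ Finset.range L, (h n (k + o) (k + o + j + 1) - h n (k + o) (k + o + j)) with hS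
    have hS1 : S = ∑ k ∈ Finset.Ico o (o + L), w n k (k + j) := by
      rw [Finset.sum_Ico_eq_sum_range, hS]
      have e : o + L - o = L := by omega
      rw [e]
      apply Finset.sum_congr rfl
      intro k _
      rw [add_comm o k]
    have hsub : Finset.Ico o (o + L) ⊆ Finset.range (K n - j) := by
      intro k hk
      rw [Finset.mem_Ico] at hk
      rw [Finset.mem_range]
      omega
    have hTS : T n j = S + ∑ k ∈ Finset.range (K n - j) \ Finset.Ico o (o + L), w n k (k + j) := by
      rw [hS1, hT]
      dsimp only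
      rw [← Finset.sum_sdiff hsub, add_comm]
    set D := ∑ k ∈ Finset.range (K n - j) \ Finset.Ico o (o + L), w n k (k + j) with hD
    have hD0 : 0 ≤ D := by
      apply Finset.sum_nonneg
      intro k hk
      have hk1 := (Finset.mem_sdiff.mp hk).1
      rw [Finset.mem_range] at hk1
      exact (hw0 n k (k + j) (by omega) (by omega)).1
    have hDM : D ≤ M * W := by
      have h5 : D ≤ ∑ k ∈ Finset.range (K n - j) \ Finset.Ico o (o + L), M := by
        apply Finset.sum_le_sum
        intro k hk
        have hk1 := (Finset.mem_sdiff.mp hk).1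
        rw [Finset.mem_range] at hk1
        exact (hw0 n k (k + j) (by omega) (by omega)).2
      rw [Finset.sum_const, nsmul_eq_mul, Finset.card_sdiff_of_subset hsub, Finset.card_range,
        Nat.card_Ico] at h5
      have h6 : ((K n - j - (o + L - o) : ℕ) : ℝ) ≤ W := by
        have : K n - j - (o + L - o) ≤ W := by omega
        exact_mod_cast this
      nlinarith
    have hS0 : 0 ≤ S := by
      rw [hS1]
      apply Finset.sum_nonneg
      intro k hk
      have hk1 := hsub hk
      rw [Finset.mem_range] at hk1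
      exact (hw0 n k (k + j) (by omega) (by omega)).1
    have hKp : (0 : ℝ) < K n := by
      have : 1 ≤ K n := by omega
      have : (1 : ℝ) ≤ K n := by exact_mod_cast this
      linarith
    have hTM' := hTM n j
    -- comparison of the two averages
    have hcmp : |S / L - T n j / (K n : ℝ)| ≤ τ / 2 := by
      have e : S / L - T n j / (K n : ℝ) =
          (T n j * ((K n : ℝ) - L) / K n - D) / L := by
        rw [hTS]
        field_simp
        ring
      rw [e, abs_div, abs_of_pos hLp, div_le_iff₀ hLp]
      have h7 : 0 ≤ T n j * ((K n : ℝ) - L) / K n := by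
        apply div_nonneg _ hKp.le
        apply mul_nonneg (hT0 n j)
        rw [hLr]
        have : (1 : ℝ) ≤ W := by
          have : 1 ≤ W := by omega
          exact_mod_cast this
        linarith
      have h8 : T n j * ((K n : ℝ) - L) / K n ≤ M * W := by
        rw [div_le_iff₀ hKp]
        have h9 : (K n : ℝ) - L ≤ W := by
          rw [hLr]
          linarith
        calc T n j * ((K n : ℝ) - L) ≤ T n j * W := mul_le_mul_of_nonneg_left h9 (hT0 n j)
          _ ≤ M * K n * W := mul_le_mul_of_nonneg_right hTM' (Nat.cast_nonneg _)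
          _ = M * W * K n := by ring
      have h10 : 4 * M * W ≤ L * τ := by
        rw [div_le_iff₀ hτ] at hLbig
        exact hLbig
      have hMW : 0 ≤ M * W := by positivity
      rw [abs_le]
      constructor <;> nlinarith
    calc |S / (L : ℝ) - V j| = |(S / L - T n j / (K n : ℝ)) + (T n j / (K n : ℝ) - V j)| := by
          congr 1
          ring
      _ ≤ |S / L - T n j / (K n : ℝ)| + |T n j / (K n : ℝ) - V j| := abs_add_le _ _
      _ ≤ τ := by linarith

end Pool.Agent.Helper70.SK
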